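import Mathlib
import Pool.Agent.H.MP_02f3ba_co.Filter

/-!
# Doubly exponential bands: constants and the norms of the kernels of each level

The band `k` is `[MM k, MM (k + 1))`, `MM k = 2 ^ (2 ^ k - 1)`, so `Nat.log 2 d + 1` lies in
`[2 ^ k, 2 ^ (k + 1))` for `d` in the band `k`.
-/

namespace Pool.Agent.H.MP_02f3ba_co.h7

open Polynomial Finset Pool.Agent.H.MP_02f3ba_co

/-- the ends of the bands -/
def MM (k : ℕ) : ℕ := 2 ^ (2 ^ k - 1)

/-- the number of the band of `d` -/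
def sl (d : ℕ) : ℕ := Nat.log 2 (Nat.log 2 d + 1)

/-- the weights -/
def ww (k : ℕ) : ℕ := 4 ^ k * (k + 1) ^ 4

/-- the damping times -/
def Ed (d : ℕ) : ℕ := 2 ^ 20 * 2 ^ (Nat.log 2 d) * ww (sl d)

theorem one_le_two_pow' (k : ℕ) : 1 ≤ 2 ^ k := Nat.one_le_two_pow

theorem one_le_MM (k : ℕ) : 1 ≤ MM k := Nat.one_le_two_pow

theorem MM_zero : MM 0 = 1 := rfl

theorem MM_mono {k l : ℕ} (h : k ≤ l) : MM k ≤ MM l := by
  unfold MM
  apply Nat.pow_le_pow_right (by norm_num)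
  have := Nat.pow_le_pow_right (n := 2) (by norm_num) h
  omega

theorem MM_succ_le (k : ℕ) : MM k ≤ MM (k + 1) := MM_mono (Nat.le_succ k)

theorem MM_le (k : ℕ) : MM (k + 1) ≤ 2 ^ (2 * 2 ^ k - 1) := by
  unfold MM
  rw [pow_succ, mul_comm]

theorem ww_pos (k : ℕ) : 1 ≤ ww k := by
  unfold ww
  exact Nat.mul_pos (by positivity) (by positivity)

theorem ww_mono {k l : ℕ} (h : k ≤ l) : ww k ≤ ww l := by
  unfold ww
  exact Nat.mul_le_mul (Nat.pow_le_pow_right (by norm_num) h)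
    (Nat.pow_le_pow_left (by omega) 4)

theorem ww_le (k : ℕ) : ww k ≤ 2 ^ (6 * 2 ^ k) := by
  unfold ww
  have h1 : k ≤ 2 ^ k := Nat.lt_two_pow_self.le
  have h2 : k + 1 ≤ 2 ^ k := Nat.lt_two_pow_self
  have h3 : (4 : ℕ) ^ k ≤ 2 ^ (2 * 2 ^ k) := by
    rw [show (4 : ℕ) = 2 ^ 2 by norm_num, ← pow_mul]
    exact Nat.pow_le_pow_right (by norm_num) (by omega)
  have h4 : (k + 1) ^ 4 ≤ 2 ^ (4 * 2 ^ k) := by
    calc (k + 1) ^ 4 ≤ (2 ^ k) ^ 4 := Nat.pow_le_pow_left h2 4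
      _ = 2 ^ (4 * k) := by rw [← pow_mul, mul_comm]
      _ ≤ 2 ^ (4 * 2 ^ k) := Nat.pow_le_pow_right (by norm_num) (by omega)
  calc 4 ^ k * (k + 1) ^ 4 ≤ 2 ^ (2 * 2 ^ k) * 2 ^ (4 * 2 ^ k) := Nat.mul_le_mul h3 h4
    _ = 2 ^ (6 * 2 ^ k) := by
      rw [← pow_add]
      congr 1
      ring

theorem two_le_Ed (d : ℕ) : 2 ≤ Ed d := by
  unfold Ed
  have h1 : 1 ≤ 2 ^ (Nat.log 2 d) := Nat.one_le_two_pow
  calc 2 ≤ 2 ^ 20 * 1 * 1 := by norm_num
    _ ≤ 2 ^ 20 * 2 ^ (Nat.log 2 d) * ww (sl d) :=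
      Nat.mul_le_mul (Nat.mul_le_mul_left _ h1) (ww_pos _)

theorem log_lt_sl (d : ℕ) : Nat.log 2 d + 1 < 2 ^ (sl d + 1) :=
  Nat.lt_pow_succ_log_self (by norm_num) _

theorem sl_le_log (d : ℕ) : 2 ^ sl d ≤ Nat.log 2 d + 1 :=
  Nat.pow_log_le_self 2 (by omega)

theorem Ed_le (d k : ℕ) (h : sl d ≤ k) : Ed d ≤ 2 ^ (20 + 8 * 2 ^ k) := by
  unfold Ed
  have h0 : 2 ^ (sl d + 1) ≤ 2 * 2 ^ k := by
    rw [pow_succ, mul_comm]
    exact Nat.mul_le_mul_left _ (Nat.pow_le_pow_right (by norm_num) h)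
  have h1 : 2 ^ (Nat.log 2 d) ≤ 2 ^ (2 * 2 ^ k) := by
    apply Nat.pow_le_pow_right (by norm_num)
    have := log_lt_sl d
    omega
  have h2 : ww (sl d) ≤ 2 ^ (6 * 2 ^ k) := (ww_mono h).trans (ww_le k)
  calc 2 ^ 20 * 2 ^ (Nat.log 2 d) * ww (sl d) ≤ 2 ^ 20 * 2 ^ (2 * 2 ^ k) * 2 ^ (6 * 2 ^ k) :=
        Nat.mul_le_mul (Nat.mul_le_mul_left _ h1) h2
    _ = 2 ^ (20 + 8 * 2 ^ k) := by
      rw [← pow_add, ← pow_add]
      congr 1
      ring

theorem sl_of_mem {k d : ℕ} (h : d ∈ Finset.Ico (MM k) (MM (k + 1))) : sl d = k := by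
  rw [Finset.mem_Ico] at h
  have h0 : d ≠ 0 := by
    have := one_le_MM k
    omega
  have h1 : 2 ^ k - 1 ≤ Nat.log 2 d := Nat.le_log_of_pow_le (by norm_num) h.1
  have h2 : Nat.log 2 d < 2 ^ (k + 1) - 1 := Nat.log_lt_of_lt_pow h0 h.2
  unfold sl
  exact Nat.log_eq_of_pow_le_of_lt_pow (by omega) (by omega)

theorem lt_MM (d : ℕ) : d < MM (sl d + 1) := by
  have h1 : d < 2 ^ (Nat.log 2 d + 1) := Nat.lt_pow_succ_log_self (by norm_num) d
  refine h1.trans_le ?_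
  unfold MM
  apply Nat.pow_le_pow_right (by norm_num)
  have := log_lt_sl d
  omega

theorem sl_le_of_lt {k d : ℕ} (hd : 1 ≤ d) (h : d < MM (k + 1)) : sl d ≤ k := by
  have h2 : Nat.log 2 d < 2 ^ (k + 1) - 1 := Nat.log_lt_of_lt_pow (by omega) h
  have h3 : sl d < k + 1 := by
    unfold sl
    exact Nat.log_lt_of_lt_pow (by omega) (by omega)
  omega

theorem sum_log (a n : ℕ) :
    ∑ d ∈ Finset.Ico (2 ^ a) (2 ^ (a + n)), 1 / ((2 : ℝ) ^ (Nat.log 2 d)) = n := by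
  induction n with
  | zero => simp
  | succ n ih =>
    have h1 : 2 ^ a ≤ 2 ^ (a + n) := Nat.pow_le_pow_right (by norm_num) (by omega)
    have h2 : 2 ^ (a + n) ≤ 2 ^ (a + (n + 1)) := Nat.pow_le_pow_right (by norm_num) (by omega)
    rw [← Finset.sum_Ico_consecutive _ h1 h2, ih]
    have h3 : ∀ d ∈ Finset.Ico (2 ^ (a + n)) (2 ^ (a + (n + 1))),
        1 / ((2 : ℝ) ^ (Nat.log 2 d)) = 1 / 2 ^ (a + n) := by
      intro d hd
      rw [Finset.mem_Ico] at hd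
      rw [Nat.log_eq_of_pow_le_of_lt_pow hd.1 (by rw [← add_assoc] at hd; exact hd.2)]
    rw [Finset.sum_congr rfl h3, Finset.sum_const, Nat.card_Ico, nsmul_eq_mul]
    have h4 : (2 : ℕ) ^ (a + (n + 1)) - 2 ^ (a + n) = 2 ^ (a + n) := by
      rw [← add_assoc, pow_succ]; omega
    rw [h4]
    push_cast
    field_simp

/-- the total damping of the band `k` -/
theorem sum_band (k : ℕ) :
    ∑ d ∈ Finset.Ico (MM k) (MM (k + 1)), 1 / (Ed d : ℝ) =
      1 / (2 ^ 20 * 2 ^ k * ((k : ℝ) + 1) ^ 4) := by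
  have h : ∀ d ∈ Finset.Ico (MM k) (MM (k + 1)), 1 / (Ed d : ℝ) =
      1 / (2 ^ 20 * (4 ^ k * ((k : ℝ) + 1) ^ 4)) * (1 / ((2 : ℝ) ^ (Nat.log 2 d))) := by
    intro d hd
    unfold Ed ww
    rw [sl_of_mem hd]
    push_cast
    rw [one_div_mul_one_div]
    congr 1
    ring
  rw [Finset.sum_congr rfl h, ← Finset.mul_sum]
  have h1 : (2 : ℕ) ^ (k + 1) - 1 = 2 ^ k - 1 + 2 ^ k := by
    have := one_le_two_pow' k
    rw [pow_succ]
    omega
  have h2 := sum_log (2 ^ k - 1) (2 ^ k)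
  unfold MM
  rw [h1, h2]
  push_cast
  have h4 : (4 : ℝ) ^ k = 2 ^ k * 2 ^ k := by
    rw [← mul_pow]
    norm_num
  rw [h4]
  field_simp

theorem sum_inv_sq (n : ℕ) : ∑ k ∈ Finset.range n, 1 / ((k : ℝ) + 1) ^ 2 ≤ 2 := by
  have key : ∀ n : ℕ, ∑ k ∈ Finset.range (n + 1), 1 / ((k : ℝ) + 1) ^ 2 ≤ 2 - 1 / ((n : ℝ) + 1) := by
    intro n
    induction n with
    | zero => norm_num
    | succ n ih =>
      rw [Finset.sum_range_succ]
      have h1 : 1 / (((n + 1 : ℕ) : ℝ) + 1) ^ 2 ≤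
          1 / ((n : ℝ) + 1) - 1 / (((n + 1 : ℕ) : ℝ) + 1) := by
        push_cast
        have hn : (0 : ℝ) ≤ n := Nat.cast_nonneg n
        have e : 1 / ((n : ℝ) + 1) - 1 / ((n : ℝ) + 1 + 1) =
            1 / (((n : ℝ) + 1) * ((n : ℝ) + 1 + 1)) := by
          field_simp
          ring
        rw [e]
        apply one_div_le_one_div_of_le (by positivity)
        nlinarith
      linarith
  rcases n with _ | n
  · simp
  · have h1 := key n
    have h2 : (0 : ℝ) ≤ 1 / ((n : ℝ) + 1) := by positivity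
    linarith

/-- the total damping below the band `k` is tiny -/
theorem sum_below (k : ℕ) : ∑ d ∈ Finset.Ico 1 (MM k), 1 / (Ed d : ℝ) ≤ 1 / 2 ^ 19 := by
  have h : ∀ k : ℕ, ∑ d ∈ Finset.Ico 1 (MM k), 1 / (Ed d : ℝ) ≤
      1 / 2 ^ 20 * ∑ j ∈ Finset.range k, 1 / ((j : ℝ) + 1) ^ 2 := by
    intro k
    induction k with
    | zero => simp [MM]
    | succ k ih =>
      rw [← Finset.sum_Ico_consecutive _ (one_le_MM k) (MM_succ_le k), sum_band,
        Finset.sum_range_succ, mul_add]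
      refine add_le_add ih ?_
      rw [one_div_mul_one_div]
      apply one_div_le_one_div_of_le (by positivity)
      have h1 : (1 : ℝ) ≤ 2 ^ k := one_le_pow₀ (by norm_num)
      have h2 : (1 : ℝ) ≤ (k : ℝ) + 1 := by
        have : (0 : ℝ) ≤ k := Nat.cast_nonneg k
        linarith
      have h3 : ((k : ℝ) + 1) ^ 2 ≤ ((k : ℝ) + 1) ^ 4 := pow_le_pow_right₀ h2 (by norm_num)
      have h5 : (0 : ℝ) ≤ ((k : ℝ) + 1) ^ 4 := by positivity
      calc (2 : ℝ) ^ 20 * ((k : ℝ) + 1) ^ 2 ≤ 2 ^ 20 * ((k : ℝ) + 1) ^ 4 := by gcongr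
        _ = 2 ^ 20 * 1 * ((k : ℝ) + 1) ^ 4 := by ring
        _ ≤ 2 ^ 20 * 2 ^ k * ((k : ℝ) + 1) ^ 4 := by gcongr
  refine (h k).trans ?_
  have := sum_inv_sq k
  calc 1 / 2 ^ 20 * ∑ j ∈ Finset.range k, 1 / ((j : ℝ) + 1) ^ 2 ≤ 1 / 2 ^ 20 * 2 :=
        mul_le_mul_of_nonneg_left this (by positivity)
    _ = 1 / 2 ^ 19 := by norm_num

theorem exp_le_two {x : ℝ} (h : x ≤ 1 / 2 ^ 19) : Real.exp (4 * x) ≤ 2 := by
  have h1 : Real.exp (4 * x) ≤ Real.exp (1 / 2) := by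
    apply Real.exp_le_exp.mpr
    norm_num at h ⊢
    linarith
  have h2 : Real.exp (1 / 2) ^ 2 = Real.exp 1 := by
    rw [← Real.exp_nat_mul]
    norm_num
  have h3 := Real.exp_one_lt_d9
  nlinarith [Real.exp_pos (1 / 2)]

theorem exp_sub_one_le {x : ℝ} (h0 : 0 ≤ x) (h : x ≤ 1) : Real.exp x - 1 ≤ 2 * x := by
  have h1 := Real.abs_exp_sub_one_le (x := x) (by rwa [abs_of_nonneg h0])
  rw [abs_of_nonneg h0] at h1
  exact (le_abs_self _).trans h1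

theorem band_factor (k : ℕ) :
    Real.exp (4 * ∑ d ∈ Finset.Ico (MM k) (MM (k + 1)), 1 / (Ed d : ℝ)) - 1 ≤
      8 / (2 ^ 20 * 2 ^ k * ((k : ℝ) + 1) ^ 4) := by
  rw [sum_band]
  have h1 : (1 : ℝ) ≤ ((k : ℝ) + 1) ^ 4 := one_le_pow₀ (by linarith [Nat.cast_nonneg (α := ℝ) k])
  have h0 : (1 : ℝ) ≤ 2 ^ k := one_le_pow₀ (by norm_num)
  have h2 : 4 * (1 / (2 ^ 20 * 2 ^ k * ((k : ℝ) + 1) ^ 4)) ≤ 1 := by
    rw [mul_one_div, div_le_one (by positivity)]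
    calc (4 : ℝ) ≤ 2 ^ 20 * 1 * 1 := by norm_num
      _ ≤ 2 ^ 20 * 2 ^ k * ((k : ℝ) + 1) ^ 4 := by gcongr
  refine (exp_sub_one_le (by positivity) h2).trans (le_of_eq ?_)
  ring

/-- window length for the kernels of band `k` -/
def Hw (k : ℕ) : ℕ := 2 ^ (20 * 2 ^ k + 41)

theorem Hw_dvd {k K : ℕ} (h : k ≤ K) : Hw k ∣ Hw K := by
  unfold Hw
  apply pow_dvd_pow
  have := Nat.pow_le_pow_right (n := 2) (by norm_num) h
  omega

theorem Hw_mono {k K : ℕ} (h : k ≤ K) : Hw k ≤ Hw K := by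
  unfold Hw
  apply Nat.pow_le_pow_right (by norm_num)
  have := Nat.pow_le_pow_right (n := 2) (by norm_num) h
  omega

theorem sum_deg_lt (k : ℕ) : ∑ d ∈ Finset.Ico 1 (MM (k + 1)), d * (Ed d) ^ 2 < Hw k := by
  have h1 : ∀ d ∈ Finset.Ico 1 (MM (k + 1)), d * (Ed d) ^ 2 ≤
      2 ^ (2 * 2 ^ k) * (2 ^ (20 + 8 * 2 ^ k)) ^ 2 := by
    intro d hd
    rw [Finset.mem_Ico] at hd
    have hlog : sl d ≤ k := sl_le_of_lt hd.1 hd.2
    refine Nat.mul_le_mul ?_ (Nat.pow_le_pow_left (Ed_le d k hlog) 2)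
    refine hd.2.le.trans ((MM_le k).trans ?_)
    exact Nat.pow_le_pow_right (by norm_num) (by omega)
  have h2 := Finset.sum_le_sum h1
  rw [Finset.sum_const, Nat.card_Ico, smul_eq_mul] at h2
  have h3 : (MM (k + 1) - 1) * (2 ^ (2 * 2 ^ k) * (2 ^ (20 + 8 * 2 ^ k)) ^ 2) ≤
      2 ^ (2 * 2 ^ k) * (2 ^ (2 * 2 ^ k) * (2 ^ (20 + 8 * 2 ^ k)) ^ 2) := by
    apply Nat.mul_le_mul_right
    refine (Nat.sub_le _ _).trans ((MM_le k).trans ?_)
    exact Nat.pow_le_pow_right (by norm_num) (by omega)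
  have h4 : 2 ^ (2 * 2 ^ k) * (2 ^ (2 * 2 ^ k) * (2 ^ (20 + 8 * 2 ^ k)) ^ 2) =
      2 ^ (20 * 2 ^ k + 40) := by
    rw [← pow_mul, ← pow_add, ← pow_add]
    congr 1
    ring
  have h5 : 2 ^ (20 * 2 ^ k + 40) < Hw k := by
    unfold Hw
    exact Nat.pow_lt_pow_right (by norm_num) (by omega)
  omega

/-! ### filters -/

/-- the filters in the band `k` -/
noncomputable def PBk (k : ℕ) : ℝ[X] := AS Ed (Ico (MM k) (MM (k + 1)))

theorem X_pow_dvd_PBk (k : ℕ) : X ^ (MM k) ∣ PBk k - 1 :=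
  X_pow_dvd_AS_sub_one two_le_Ed _ _ fun _ hd => (mem_Ico.mp hd).1

theorem coeff_PBk_zero (k : ℕ) : (PBk k - 1).coeff 0 = 0 :=
  X_pow_dvd_iff.mp (X_pow_dvd_PBk k) 0 (one_le_MM k)

theorem nsq_PBk_mul_le (k T : ℕ) (f : ℝ[X]) :
    nsq T (PBk k * f) ≤
      Real.exp (4 * ∑ d ∈ Ico (MM k) (MM (k + 1)), 1 / (Ed d : ℝ)) * nsq T f :=
  nsq_AS_mul two_le_Ed (fun d hd => by
    have h1 := (mem_Ico.mp hd).1
    have h2 := one_le_MM k
    omega) T f

theorem nsq_PBk_sub_one (k T : ℕ) :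
    nsq T (PBk k - 1) ≤
      Real.exp (4 * ∑ d ∈ Ico (MM k) (MM (k + 1)), 1 / (Ed d : ℝ)) - 1 := by
  rcases Nat.eq_zero_or_pos T with rfl | hT
  · simp only [nsq, range_zero, sum_empty]
    rw [sub_nonneg]
    refine Real.one_le_exp ?_
    positivity
  · have h0 : (PBk k - 1).coeff 0 = 0 := coeff_PBk_zero k
    have h1 : ∀ n, ((PBk k).coeff n) ^ 2
        = ((PBk k - 1).coeff n) ^ 2 + ((1 : ℝ[X]).coeff n) ^ 2 := by
      intro n
      have e : (PBk k).coeff n = (PBk k - 1).coeff n + (1 : ℝ[X]).coeff n := by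
        rw [coeff_sub]; ring
      rcases Nat.eq_zero_or_pos n with rfl | hn
      · rw [e, h0]; ring
      · have : (1 : ℝ[X]).coeff n = 0 := by
          rw [coeff_one, if_neg (by omega)]
        rw [e, this]; ring
    have h2 : nsq T (PBk k) = nsq T (PBk k - 1) + nsq T (1 : ℝ[X]) := by
      simp only [nsq, h1, sum_add_distrib]
    have h3 : nsq T (1 : ℝ[X]) = 1 := by
      simp only [nsq, coeff_one]
      rw [sum_eq_single 0]
      · simp
      · intro b _ hb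
        rw [if_neg hb]; norm_num
      · intro h
        exact absurd (mem_range.mpr hT) h
    have h4 := nsq_PBk_mul_le k T 1
    rw [mul_one, h2, h3, mul_one] at h4
    linarith

theorem nsq_Qp_mul_PBk {d : ℕ} (hd : 1 ≤ d) (k T : ℕ)
    (hdk : d * (Ed d) ^ 2 ≤ MM k) :
    nsq T (Qp (Ed d) d * (PBk k - 1)) ≤
      (Real.exp (4 * ∑ d ∈ Ico (MM k) (MM (k + 1)), 1 / (Ed d : ℝ)) - 1) * Ed d := by
  have hdeg : (Qp (Ed d) d).natDegree < MM k := by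
    have h1 := natDegree_Qp_le (Ed d) d
    have h3 : 1 ≤ (Ed d) ^ 2 := Nat.one_le_pow _ _ (by have := two_le_Ed d; omega)
    have h4 : d * ((Ed d) ^ 2 - 1) < d * (Ed d) ^ 2 :=
      Nat.mul_lt_mul_of_pos_left (by omega) (by omega)
    omega
  have h1 : ∀ n, ((PBk k * Qp (Ed d) d).coeff n) ^ 2
      = ((Qp (Ed d) d * (PBk k - 1)).coeff n) ^ 2 + ((Qp (Ed d) d).coeff n) ^ 2 := by
    intro n
    have e : (PBk k * Qp (Ed d) d).coeff n
        = (Qp (Ed d) d * (PBk k - 1)).coeff n + (Qp (Ed d) d).coeff n := by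
      rw [← coeff_add]
      congr 1
      ring
    rcases lt_or_ge n (MM k) with hn | hn
    · have h0 : (Qp (Ed d) d * (PBk k - 1)).coeff n = 0 :=
        X_pow_dvd_iff.mp ((X_pow_dvd_PBk k).mul_left _) n hn
      rw [e, h0]; ring
    · have h0 : (Qp (Ed d) d).coeff n = 0 := coeff_eq_zero_of_natDegree_lt (by omega)
      rw [e, h0]; ring
  have h2 : nsq T (PBk k * Qp (Ed d) d)
      = nsq T (Qp (Ed d) d * (PBk k - 1)) + nsq T (Qp (Ed d) d) := by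
    simp only [nsq, h1, sum_add_distrib]
  have h4 := nsq_PBk_mul_le k T (Qp (Ed d) d)
  have h5 := nsq_Qp_le (two_le_Ed d) hd T
  have h6 : 0 ≤ Real.exp (4 * ∑ d ∈ Ico (MM k) (MM (k + 1)), 1 / (Ed d : ℝ)) - 1 := by
    rw [sub_nonneg]
    refine Real.one_le_exp ?_
    positivity
  rw [h2] at h4
  calc nsq T (Qp (Ed d) d * (PBk k - 1))
      ≤ (Real.exp (4 * ∑ d ∈ Ico (MM k) (MM (k + 1)), 1 / (Ed d : ℝ)) - 1)
        * nsq T (Qp (Ed d) d) := by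
        rw [sub_mul, one_mul]
        linarith
    _ ≤ _ := mul_le_mul_of_nonneg_left h5 h6

/-- total filter of the bands `0, ..., k - 1` -/
noncomputable def AA (k : ℕ) : ℝ[X] := AS Ed (Finset.Ico 1 (MM k))

theorem AA_zero : AA 0 = 1 := by
  simp [AA, AS, MM]

theorem AA_succ (k : ℕ) : AA (k + 1) = AA k * PBk k := by
  unfold AA PBk AS
  rw [Finset.prod_Ico_consecutive _ (one_le_MM k) (MM_succ_le k)]

/-- the increment of the total filter in band `k` -/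
noncomputable def TK (k : ℕ) : ℝ[X] := AA k * (PBk k - 1)

theorem sum_TK (K : ℕ) : ∑ k ∈ Finset.range K, TK k = AA K - 1 := by
  induction K with
  | zero => simp [AA_zero]
  | succ K ih =>
    rw [Finset.sum_range_succ, ih, AA_succ, TK]
    ring

/-- integrated filter for the difference `d`, bands `0, ..., k - 1` -/
noncomputable def FF (d k : ℕ) : ℝ[X] := AS Ed ((Finset.Ico 1 (MM k)).erase d) * Qp (Ed d) d

theorem FF_mul {d k : ℕ} (hd : 1 ≤ d) (hdk : d < MM k) : (1 - X ^ d) * FF d k = AA k := by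
  unfold FF AA AS
  rw [← Finset.mul_prod_erase (Finset.Ico 1 (MM k)) (fun d => Ap (Ed d) d)
    (Finset.mem_Ico.mpr ⟨hd, hdk⟩), Ap]
  ring

/-- increment of the integrated filter -/
noncomputable def UK (d k : ℕ) : ℝ[X] :=
  AS Ed ((Finset.Ico 1 (MM k)).erase d) * (Qp (Ed d) d * (PBk k - 1))

theorem FF_succ {d k : ℕ} (hdk : d < MM k) : FF d (k + 1) = FF d k + UK d k := by
  unfold FF UK PBk AS
  have h1 : (Finset.Ico 1 (MM (k + 1))).erase d =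
      (Finset.Ico 1 (MM k)).erase d ∪ Finset.Ico (MM k) (MM (k + 1)) := by
    have h2 : MM k ≤ MM (k + 1) := MM_succ_le k
    have h3 : 1 ≤ MM k := one_le_MM k
    ext m
    simp only [Finset.mem_erase, Finset.mem_Ico, Finset.mem_union]
    omega
  have h4 : Disjoint ((Finset.Ico 1 (MM k)).erase d) (Finset.Ico (MM k) (MM (k + 1))) := by
    rw [Finset.disjoint_left]
    intro m
    simp only [Finset.mem_erase, Finset.mem_Ico]
    omega
  rw [h1, Finset.prod_union h4]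
  ring

theorem FF_eq {d k₀ : ℕ} (hdk : d < MM k₀) (K : ℕ) (hK : k₀ ≤ K) :
    FF d K = FF d k₀ + ∑ k ∈ Finset.Ico k₀ K, UK d k := by
  induction K, hK using Nat.le_induction with
  | base => simp
  | succ K hK ih =>
    rw [FF_succ (hdk.trans_le (MM_mono hK)), ih, Finset.sum_Ico_succ_top hK]
    ring

theorem sum_erase_le (d k : ℕ) : ∑ d ∈ (Finset.Ico 1 (MM k)).erase d, 1 / (Ed d : ℝ) ≤ 1 / 2 ^ 19 :=
  (Finset.sum_le_sum_of_subset_of_nonneg (Finset.erase_subset _ _)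
    (fun _ _ _ => by positivity)).trans (sum_below k)

/-- the squared norm of the kernels of level `k` -/
noncomputable def tau (k : ℕ) : ℝ := 16 / (2 ^ 20 * 2 ^ k * ((k : ℝ) + 1) ^ 4)

theorem tau_pos (k : ℕ) : 0 < tau k := by
  unfold tau
  positivity

theorem nsq_TK (k T : ℕ) : nsq T (TK k) ≤ tau k := by
  unfold TK AA tau
  have h1 := nsq_AS_mul two_le_Ed (S := Finset.Ico 1 (MM k))
    (fun d hd => (Finset.mem_Ico.mp hd).1) T (PBk k - 1)
  have h2 := (nsq_PBk_sub_one k T).trans (band_factor k)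
  have h3 := exp_le_two (sum_below k)
  calc nsq T (AS Ed (Finset.Ico 1 (MM k)) * (PBk k - 1)) ≤ _ := h1
    _ ≤ 2 * (8 / (2 ^ 20 * 2 ^ k * ((k : ℝ) + 1) ^ 4)) :=
      mul_le_mul h3 h2 (nsq_nonneg _ _) (by norm_num)
    _ = 16 / (2 ^ 20 * 2 ^ k * ((k : ℝ) + 1) ^ 4) := by ring

theorem nsq_FF {d : ℕ} (hd : 1 ≤ d) (k T : ℕ) : nsq T (FF d k) ≤ 2 * Ed d := by
  unfold FF
  have h1 := nsq_AS_mul two_le_Ed (S := (Finset.Ico 1 (MM k)).erase d)
    (fun d hd => (Finset.mem_Ico.mp (Finset.mem_of_mem_erase hd)).1) T (Qp (Ed d) d)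
  have h2 := nsq_Qp_le (two_le_Ed d) hd T
  have h3 := exp_le_two (sum_erase_le d k)
  exact h1.trans (mul_le_mul h3 h2 (nsq_nonneg _ _) (by norm_num))

theorem nsq_UK {d : ℕ} (hd : 1 ≤ d) (k T : ℕ) (hdk : d * (Ed d) ^ 2 ≤ MM k) :
    nsq T (UK d k) ≤ tau k * Ed d := by
  unfold UK tau
  have h1 := nsq_AS_mul two_le_Ed (S := (Finset.Ico 1 (MM k)).erase d)
    (fun d hd => (Finset.mem_Ico.mp (Finset.mem_of_mem_erase hd)).1) T
    (Qp (Ed d) d * (PBk k - 1))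
  have h2 := (nsq_Qp_mul_PBk hd k T hdk).trans
    (mul_le_mul_of_nonneg_right (band_factor k) (Nat.cast_nonneg _))
  have h3 := exp_le_two (sum_erase_le d k)
  calc _ ≤ _ := h1
    _ ≤ 2 * (8 / (2 ^ 20 * 2 ^ k * ((k : ℝ) + 1) ^ 4) * Ed d) :=
      mul_le_mul h3 h2 (nsq_nonneg _ _) (by norm_num)
    _ = 16 / (2 ^ 20 * 2 ^ k * ((k : ℝ) + 1) ^ 4) * Ed d := by ring

theorem natDegree_AA_lt (k : ℕ) : (AA (k + 1)).natDegree < Hw k :=
  (natDegree_AS_le two_le_Ed _).trans_lt (sum_deg_lt k)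

theorem natDegree_TK_lt (k : ℕ) : (TK k).natDegree < Hw k := by
  have h : TK k = AA (k + 1) - AA k := by
    rw [AA_succ, TK]
    ring
  rw [h]
  refine (natDegree_sub_le _ _).trans_lt (max_lt (natDegree_AA_lt k) ?_)
  refine (natDegree_AS_le two_le_Ed _).trans_lt ?_
  refine lt_of_le_of_lt ?_ (sum_deg_lt k)
  exact Finset.sum_le_sum_of_subset (Finset.Ico_subset_Ico_right (MM_succ_le k))

theorem natDegree_FF_lt {d k : ℕ} (hd : 1 ≤ d) (hdk : d < MM (k + 1)) :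
    (FF d (k + 1)).natDegree < Hw k := by
  unfold FF
  refine natDegree_mul_le.trans_lt ?_
  have h1 := natDegree_AS_le two_le_Ed ((Finset.Ico 1 (MM (k + 1))).erase d)
  have h2 := natDegree_Qp_le (Ed d) d
  have h3 := Finset.add_sum_erase (Finset.Ico 1 (MM (k + 1))) (fun d => d * (Ed d) ^ 2)
    (Finset.mem_Ico.mpr ⟨hd, hdk⟩)
  have h4 := sum_deg_lt k
  have h5 : d * ((Ed d) ^ 2 - 1) ≤ d * (Ed d) ^ 2 := Nat.mul_le_mul_left _ (Nat.sub_le _ _)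
  omega

theorem natDegree_UK_lt {d k : ℕ} (hd : 1 ≤ d) (hdk : d < MM k) :
    (UK d k).natDegree < Hw k := by
  have h : UK d k = FF d (k + 1) - FF d k := by
    rw [FF_succ hdk]
    ring
  rw [h]
  refine (natDegree_sub_le _ _).trans_lt (max_lt (natDegree_FF_lt hd
    (hdk.trans_le (MM_succ_le k))) ?_)
  rcases k with _ | k
  · rw [MM_zero] at hdk
    omega
  · exact (natDegree_FF_lt hd hdk).trans_le (Hw_mono (Nat.le_succ k))

attribute [irreducible] Hw MM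

end Pool.Agent.H.MP_02f3ba_co.h7
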