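import Mathlib
import Pool.Agent.H.MP_02f3ba_co.Levels
import Pool.Agent.H.MP_02f3ba_co.Conv
import Pool.Agent.H.MP_02f3ba_co.h7.Cst

/-!
# One stage with doubly exponential bands, for every path passing the tests
-/

namespace Pool.Agent.H.MP_02f3ba_co.h7

open Polynomial Finset Pool.Agent.H.MP_02f3ba_co

/-- first level at which the difference `d` is treated -/
def k1 (d : ℕ) : ℕ := sl d + 5

theorem lt_MM_k1 (d : ℕ) : d < MM (k1 d + 1) :=
  (lt_MM d).trans_le (MM_mono (by unfold k1; omega))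

theorem k1_deg (d : ℕ) : d * (Ed d) ^ 2 ≤ MM (k1 d + 1) := by
  have h1 : d ≤ 2 ^ (2 * 2 ^ sl d) := by
    refine (lt_MM d).le.trans ((MM_le (sl d)).trans ?_)
    exact Nat.pow_le_pow_right (by norm_num) (by omega)
  have h2 := Ed_le d (sl d) le_rfl
  calc d * (Ed d) ^ 2 ≤ 2 ^ (2 * 2 ^ sl d) * (2 ^ (20 + 8 * 2 ^ sl d)) ^ 2 :=
        Nat.mul_le_mul h1 (Nat.pow_le_pow_left h2 2)
    _ = 2 ^ (18 * 2 ^ sl d + 40) := by
      rw [← pow_mul, ← pow_add]
      congr 1
      ring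
    _ ≤ MM (k1 d + 1) := by
      unfold MM k1
      apply Nat.pow_le_pow_right (by norm_num)
      have h3 : (2 : ℕ) ^ (sl d + 5 + 1) = 64 * 2 ^ sl d := by
        rw [pow_add, pow_add]
        ring
      have h4 := one_le_two_pow' (sl d)
      rw [h3]
      omega

/-- the kernels tested at level `k` -/
noncomputable def ker (k d : ℕ) : ℝ[X] :=
  if d = 0 then TK k else if k = k1 d then FF d (k + 1) else if k1 d < k then UK d k else 0

/-- bounds for the squared norms of the kernels -/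
noncomputable def nu2 (k d : ℕ) : ℝ :=
  if d = 0 then tau k else if k = k1 d then 2 * Ed d else tau k * Ed d

theorem Ed_pos (d : ℕ) : (0 : ℝ) < Ed d := by
  have := two_le_Ed d
  exact_mod_cast (by omega : 0 < Ed d)

theorem nu2_pos (k d : ℕ) : 0 < nu2 k d := by
  unfold nu2
  have := Ed_pos d
  have := tau_pos k
  split_ifs <;> positivity

theorem nsq_ker (k d T : ℕ) : nsq T (ker k d) ≤ nu2 k d := by
  unfold ker nu2
  split_ifs with h0 h1 h2
  · exact nsq_TK k T
  · exact nsq_FF (by omega) _ _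
  · exact nsq_UK (by omega) _ _ ((k1_deg d).trans (MM_mono h2))
  · have := Ed_pos d
    have := tau_pos k
    have h : nsq T (0 : ℝ[X]) = 0 := by simp [nsq]
    rw [h]
    positivity

theorem Hw_pos (k : ℕ) : 0 < Hw k := by
  unfold Hw
  positivity

theorem natDegree_ker (k d : ℕ) : (ker k d).natDegree < Hw k := by
  unfold ker
  split_ifs with h0 h1 h2
  · exact natDegree_TK_lt k
  · refine natDegree_FF_lt (by omega) ?_
    rw [h1]
    exact lt_MM_k1 d
  · refine natDegree_UK_lt (by omega) ?_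
    exact (lt_MM_k1 d).trans_le (MM_mono h2)
  · simpa using Hw_pos k

/-- window lengths -/
def Lw : ℕ → ℕ
  | 0 => 1
  | k + 1 => Hw k

theorem Lw_pos (k : ℕ) : 0 < Lw k := by
  rcases k with _ | k
  · simp [Lw]
  · exact Hw_pos k

theorem Lw_dvd (k : ℕ) : Lw k ∣ Lw (k + 1) := by
  rcases k with _ | k
  · simp [Lw]
  · exact Hw_dvd (Nat.le_succ k)

/-- the number of differences tested at level `k + 1` -/
def Dn (k : ℕ) : ℕ := 2 ^ (2 * 2 ^ k)

theorem Dn_pos (k : ℕ) : 0 < Dn k := by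
  unfold Dn
  positivity

theorem MM_le_Dn (k : ℕ) : MM (k + 1) ≤ Dn k := by
  unfold Dn
  exact (MM_le k).trans (Nat.pow_le_pow_right (by norm_num) (by omega))

/-- number of tests -/
def Nw : ℕ → ℕ
  | 0 => 0
  | k + 1 => 2 * Hw k * Dn k

/-- test thresholds -/
noncomputable def bw (k : ℕ) : ℝ := 28 * Real.sqrt (2 ^ (k - 1))

theorem bw_succ (k : ℕ) : bw (k + 1) = 28 * Real.sqrt (2 ^ k) := rfl

theorem bw_nonneg (k : ℕ) : 0 ≤ bw k := by
  unfold bw
  positivity

/-- test vectors -/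
noncomputable def cw : ℕ → ℕ → ℕ → ℕ → ℝ
  | 0, _, _, _ => 0
  | k + 1, i, l, m => if m ≤ i * Hw k + l / Dn k then
      (ker k (l % Dn k)).coeff (i * Hw k + l / Dn k - m) /
        Real.sqrt (nu2 k (l % Dn k)) else 0

theorem exp_neg_nat (n : ℕ) : Real.exp (-(n : ℝ)) ≤ (1 / 2) ^ n := by
  have h1 : Real.exp (-(n : ℝ)) = Real.exp (-1) ^ n := by
    rw [← Real.exp_nat_mul]
    congr 1
    ring
  rw [h1]
  apply pow_le_pow_left₀ (Real.exp_pos _).le
  rw [Real.exp_neg, one_div]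
  apply inv_anti₀ (by norm_num)
  have := Real.add_one_le_exp (1 : ℝ)
  linarith

theorem Nw_bound (k : ℕ) : (Nw (k + 1) : ℝ) * (2 * Real.exp (-bw (k + 1) ^ 2 / 8)) ≤
    ((1 / 2) ^ k / 16 / 720) ^ 2 := by
  have hP : 1 ≤ 2 ^ k := one_le_two_pow' k
  have hk : k < 2 ^ k := Nat.lt_two_pow_self
  obtain ⟨r, hr⟩ : ∃ r, 98 * 2 ^ k = (22 * 2 ^ k + 43) + (2 * k + 27 + r) :=
    ⟨98 * 2 ^ k - (22 * 2 ^ k + 43) - (2 * k + 27), by omega⟩
  have h1 : bw (k + 1) ^ 2 = 784 * 2 ^ k := by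
    rw [bw_succ, mul_pow, Real.sq_sqrt (by positivity)]
    norm_num
  have h2 : Real.exp (-bw (k + 1) ^ 2 / 8) ≤ (1 / 2) ^ (98 * 2 ^ k) := by
    refine le_trans ?_ (exp_neg_nat _)
    apply Real.exp_le_exp.mpr
    rw [h1]
    push_cast
    have : (0 : ℝ) ≤ 2 ^ k := by positivity
    linarith
  have h3 : (Nw (k + 1) : ℝ) = 2 ^ (22 * 2 ^ k + 42) := by
    have h4 : Nw (k + 1) = 2 ^ (22 * 2 ^ k + 42) := by
      simp only [Nw, Dn]
      unfold Hw
      rw [← pow_succ', ← pow_add]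
      congr 1
      ring
    rw [h4]
    push_cast
    rfl
  rw [h3]
  have e2 : (2 : ℝ) ^ (22 * 2 ^ k + 42) * 2 * (1 / 2) ^ (22 * 2 ^ k + 43) = 1 := by
    rw [← pow_succ, ← mul_pow]
    norm_num
  have h4 : (2 : ℝ) ^ (22 * 2 ^ k + 42) * (2 * (1 / 2) ^ (98 * 2 ^ k)) =
      (1 / 2) ^ (2 * k + 27 + r) := by
    rw [hr, pow_add (1 / 2 : ℝ) (22 * 2 ^ k + 43)]
    calc (2 : ℝ) ^ (22 * 2 ^ k + 42) *
          (2 * ((1 / 2) ^ (22 * 2 ^ k + 43) * (1 / 2) ^ (2 * k + 27 + r)))
        = ((2 : ℝ) ^ (22 * 2 ^ k + 42) * 2 * (1 / 2) ^ (22 * 2 ^ k + 43)) *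
          (1 / 2) ^ (2 * k + 27 + r) := by ring
      _ = _ := by rw [e2, one_mul]
  have h5 : (2 : ℝ) ^ (22 * 2 ^ k + 42) * (2 * Real.exp (-bw (k + 1) ^ 2 / 8)) ≤
      (1 / 2) ^ (2 * k + 27 + r) := by
    rw [← h4]
    apply mul_le_mul_of_nonneg_left _ (by positivity)
    linarith
  refine h5.trans ?_
  have h6 : ((1 / 2 : ℝ) ^ k / 16 / 720) ^ 2 = (1 / 2) ^ (2 * k) * (1 / 132710400) := by
    rw [div_pow, div_pow, ← pow_mul, mul_comm k 2]
    norm_num
    ring
  rw [h6]
  have h7 : (1 / 2 : ℝ) ^ (2 * k + 27 + r) ≤ (1 / 2) ^ (2 * k + 27) :=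
    pow_le_pow_of_le_one (by norm_num) (by norm_num) (by omega)
  refine h7.trans ?_
  rw [pow_add]
  apply mul_le_mul_of_nonneg_left _ (by positivity)
  norm_num

theorem cw_norm (k i l : ℕ) : ∑ m ∈ Finset.Ico (i * Lw (k + 1)) ((i + 1) * Lw (k + 1)),
    cw (k + 1) i l m ^ 2 ≤ 1 := by
  simp only [cw]
  set t := i * Hw k + l / Dn k with ht
  set d := l % Dn k with hd
  have hnu := nu2_pos k d
  have h1 : ∀ m ∈ Finset.Ico (i * Lw (k + 1)) ((i + 1) * Lw (k + 1)),
      (if m ≤ t then (ker k d).coeff (t - m) / Real.sqrt (nu2 k d) else 0) ^ 2 =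
      if m ∈ Finset.range (t + 1) then (ker k d).coeff (t - m) ^ 2 / nu2 k d else 0 := by
    intro m _
    by_cases hm : m ≤ t
    · rw [if_pos hm, if_pos (Finset.mem_range.mpr (by omega)), div_pow, Real.sq_sqrt hnu.le]
    · rw [if_neg hm, if_neg (by rw [Finset.mem_range]; omega)]
      norm_num
  rw [Finset.sum_congr rfl h1, ← Finset.sum_filter]
  have h2 : ∑ m ∈ (Finset.Ico (i * Lw (k + 1)) ((i + 1) * Lw (k + 1))).filter
      (fun m => m ∈ Finset.range (t + 1)), (ker k d).coeff (t - m) ^ 2 / nu2 k d ≤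
      ∑ m ∈ Finset.range (t + 1), (ker k d).coeff (t - m) ^ 2 / nu2 k d := by
    apply Finset.sum_le_sum_of_subset_of_nonneg
    · intro m hm
      exact (Finset.mem_filter.mp hm).2
    · intro m _ _
      positivity
  refine h2.trans ?_
  rw [← Finset.sum_div, div_le_one hnu]
  refine le_trans (le_of_eq ?_) (nsq_ker k d (t + 1))
  unfold nsq
  rw [← Finset.sum_range_reflect]
  apply Finset.sum_congr rfl
  intro m hm
  rw [Finset.mem_range] at hm
  congr 2
  omega

theorem coeff_TK_zero (k : ℕ) : (TK k).coeff 0 = 0 := by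
  unfold TK
  rw [mul_coeff_zero, coeff_PBk_zero k, mul_zero]

/-- the bound of the tests of level `k + 1` -/
theorem sqrt_tau (k : ℕ) : 28 * Real.sqrt (2 ^ k) * Real.sqrt (tau k) =
    7 / 64 * (1 / ((k : ℝ) + 1) ^ 2) := by
  rw [mul_assoc, ← Real.sqrt_mul (by positivity)]
  have h : (2 : ℝ) ^ k * tau k = (1 / (256 * ((k : ℝ) + 1) ^ 2)) ^ 2 := by
    unfold tau
    have h2 : (2 : ℝ) ^ k ≠ 0 := by positivity
    have h3 : ((k : ℝ) + 1) ≠ 0 := by positivity
    rw [div_pow, mul_pow, ← pow_mul]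
    field_simp
    norm_num
  rw [h, Real.sqrt_sq (by positivity)]
  have h3 : ((k : ℝ) + 1) ≠ 0 := by positivity
  field_simp
  norm_num

/-- The bound of one stage holds for every path that passes all the tests. -/
theorem stage_of_tests (K : ℕ) (y : ℕ → ℝ)
    (htest : ∀ k ≤ K + 1, 1 ≤ k → ∀ i, (i + 1) * Lw k ≤ Lw (K + 1) → ∀ l < Nw k,
      |∑ m ∈ Finset.Ico (i * Lw k) ((i + 1) * Lw k),
        cw k i l m * (y m - pred (AA (K + 1) - 1) y m)| ≤ bw k) :
    ∀ d, 1 ≤ d → k1 d ≤ K → ∀ a N, a + N * d < Hw K →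
      |∑ i ∈ Finset.range N, y (a + i * d)| ≤
        2 * (449 * Real.sqrt (2 ^ sl d * Ed d)) := by
  set T : ℝ[X] := AA (K + 1) - 1 with hT
  set e : ℕ → ℝ := fun m => y m - pred T y m with he
  -- every kernel of every level gives a small convolution
  have hker : ∀ k ≤ K, ∀ d < MM (k + 1), ∀ t < Hw K,
      |conv (ker k d) e t| ≤ 2 * (28 * Real.sqrt (2 ^ k) * Real.sqrt (nu2 k d)) := by
    intro k hk d hd' t ht
    have hd : d < Dn k := hd'.trans_le (MM_le_Dn k)
    have hDn := Dn_pos k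
    have hdvd : Hw k ∣ Hw K := Hw_dvd hk
    obtain ⟨R, hR⟩ := hdvd
    have ht2 : t < R * Hw k := by
      rw [mul_comm, ← hR]
      exact ht
    have hB0 : 0 ≤ 28 * Real.sqrt (2 ^ k) * Real.sqrt (nu2 k d) := by positivity
    refine conv_bound (ker k d) e (Hw k) R t (natDegree_ker k d) ht2 hB0 ?_
    intro i hi t' ht'
    have hl : t' * Dn k + d < Nw (k + 1) := by
      simp only [Nw]
      calc t' * Dn k + d < t' * Dn k + Dn k := by omega
        _ = (t' + 1) * Dn k := by ring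
        _ ≤ 2 * Hw k * Dn k := Nat.mul_le_mul_right _ (by omega)
    have hdiv : (t' * Dn k + d) / Dn k = t' := by
      rw [mul_comm, Nat.mul_add_div hDn, Nat.div_eq_of_lt hd, add_zero]
    have hmod : (t' * Dn k + d) % Dn k = d := by
      rw [mul_comm, Nat.mul_add_mod, Nat.mod_eq_of_lt hd]
    have h1 := htest (k + 1) (by omega) (by omega) i (by
      simp only [Lw]
      rw [hR, mul_comm (Hw k) R]
      exact Nat.mul_le_mul_right _ hi) _ hl
    simp only [cw, hdiv, hmod, Lw] at h1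
    have h2 : ∑ m ∈ Finset.Ico (i * Hw k) ((i + 1) * Hw k),
        (if m ≤ i * Hw k + t' then (ker k d).coeff (i * Hw k + t' - m) * e m else 0) =
        Real.sqrt (nu2 k d) * ∑ m ∈ Finset.Ico (i * Hw k) ((i + 1) * Hw k),
          (if m ≤ i * Hw k + t' then (ker k d).coeff (i * Hw k + t' - m) /
            Real.sqrt (nu2 k d) else 0) * (y m - pred T y m) := by
      rw [Finset.mul_sum]
      apply Finset.sum_congr rfl
      intro m _
      have hs : Real.sqrt (nu2 k d) ≠ 0 := (Real.sqrt_pos.mpr (nu2_pos k d)).ne'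
      split_ifs
      · field_simp
        rfl
      · ring
    rw [h2, abs_mul, abs_of_nonneg (Real.sqrt_nonneg _), mul_comm]
    refine mul_le_mul_of_nonneg_right (h1.trans (le_of_eq ?_)) (Real.sqrt_nonneg _)
    exact bw_succ k
  -- no clipping
  have hT0 : T.coeff 0 = 0 := by
    rw [hT, ← sum_TK, finsetSum_coeff]
    exact Finset.sum_eq_zero fun k _ => coeff_TK_zero k
  have hpred : ∀ n, pred T y n = clip (conv T e n) := by
    intro n
    rw [pred_eq]
    unfold conv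
    rw [Finset.sum_range_succ, Nat.sub_self, hT0, zero_mul, add_zero]
  have hconvT : ∀ n < Hw K, |conv T e n| ≤ 1 / 2 := by
    intro n hn
    rw [hT, ← sum_TK, conv_sum]
    refine (Finset.abs_sum_le_sum_abs _ _).trans ?_
    have h1 : ∀ k ∈ Finset.range (K + 1), |conv (TK k) e n| ≤
        7 / 32 * (1 / ((k : ℝ) + 1) ^ 2) := by
      intro k hk
      rw [Finset.mem_range] at hk
      have h2 := hker k (by omega) 0 (one_le_MM (k + 1)) n hn
      have e1 : ker k 0 = TK k := by simp [ker]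
      have e2 : nu2 k 0 = tau k := by simp [nu2]
      rw [e1, e2, sqrt_tau] at h2
      refine h2.trans (le_of_eq ?_)
      ring
    refine (Finset.sum_le_sum h1).trans ?_
    rw [← Finset.mul_sum]
    have h3 := sum_inv_sq (K + 1)
    calc (7 / 32 : ℝ) * ∑ k ∈ Finset.range (K + 1), 1 / ((k : ℝ) + 1) ^ 2
        ≤ 7 / 32 * 2 := mul_le_mul_of_nonneg_left h3 (by norm_num)
      _ ≤ 1 / 2 := by norm_num
  have hyA : ∀ n < Hw K, y n = conv (AA (K + 1)) e n := by
    intro n hn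
    have h1 : AA (K + 1) = 1 + T := by rw [hT]; ring
    rw [h1, conv_add, conv_one]
    have h2 := hpred n
    rw [clip_eq (hconvT n hn)] at h2
    simp only [he]
    rw [← h2]
    ring
  -- the integrated process
  intro d hd hdK a N haN
  set S : ℕ → ℝ := fun t => conv (FF d (K + 1)) e t with hS
  have hk1K : k1 d + 1 ≤ K + 1 := by omega
  have hd2 : d < MM (K + 1) := (lt_MM_k1 d).trans_le (MM_mono hk1K)
  have hE := Ed_pos d
  have hd0 : d ≠ 0 := by omega
  apply ap_bound y S d (Hw K) _ _ (by positivity) a N haN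
  · intro t ht
    rw [hyA t ht, ← FF_mul hd hd2, conv_shift]
  · intro t ht
    simp only [hS]
    rw [FF_eq (lt_MM_k1 d) (K + 1) hk1K, conv_add, conv_sum]
    refine (abs_add_le _ _).trans ?_
    have h1 : |conv (FF d (k1 d + 1)) e t| ≤ 448 * Real.sqrt (2 ^ sl d * Ed d) := by
      have h2 := hker (k1 d) (by omega) d (lt_MM_k1 d) t ht
      have e1 : ker (k1 d) d = FF d (k1 d + 1) := by simp [ker, hd0]
      have e2 : nu2 (k1 d) d = 2 * Ed d := by simp [nu2, hd0]
      rw [e1, e2, mul_assoc 28, ← Real.sqrt_mul (by positivity)] at h2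
      refine h2.trans (le_of_eq ?_)
      have h3 : (2 : ℝ) ^ k1 d * (2 * Ed d) = 8 ^ 2 * (2 ^ sl d * Ed d) := by
        unfold k1
        rw [pow_add]
        ring
      rw [h3, Real.sqrt_mul (by positivity), Real.sqrt_sq (by norm_num)]
      ring
    have h2 : |∑ k ∈ Finset.Ico (k1 d + 1) (K + 1), conv (UK d k) e t| ≤
        Real.sqrt (2 ^ sl d * Ed d) := by
      refine (Finset.abs_sum_le_sum_abs _ _).trans ?_
      have h3 : ∀ k ∈ Finset.Ico (k1 d + 1) (K + 1), |conv (UK d k) e t| ≤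
          7 / 32 * Real.sqrt (Ed d) * (1 / ((k : ℝ) + 1) ^ 2) := by
        intro k hk
        rw [Finset.mem_Ico] at hk
        have hdk : d < MM (k + 1) := (lt_MM_k1 d).trans_le (MM_mono (by omega))
        have h4 := hker k (by omega) d hdk t ht
        have e1 : ker k d = UK d k := by
          unfold ker
          rw [if_neg hd0, if_neg (by omega), if_pos (by omega)]
        have e2 : nu2 k d = tau k * Ed d := by
          unfold nu2
          rw [if_neg hd0, if_neg (by omega)]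
        rw [e1, e2, Real.sqrt_mul (tau_pos k).le] at h4
        refine h4.trans (le_of_eq ?_)
        have h8 := sqrt_tau k
        calc 2 * (28 * Real.sqrt (2 ^ k) * (Real.sqrt (tau k) * Real.sqrt (Ed d)))
            = 2 * ((28 * Real.sqrt (2 ^ k) * Real.sqrt (tau k)) * Real.sqrt (Ed d)) := by ring
          _ = 7 / 32 * Real.sqrt (Ed d) * (1 / ((k : ℝ) + 1) ^ 2) := by rw [h8]; ring
      refine (Finset.sum_le_sum h3).trans ?_
      rw [← Finset.mul_sum]
      have h5 : ∑ k ∈ Finset.Ico (k1 d + 1) (K + 1), 1 / ((k : ℝ) + 1) ^ 2 ≤ 2 := by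
        refine le_trans ?_ (sum_inv_sq (K + 1))
        apply Finset.sum_le_sum_of_subset_of_nonneg
        · rw [Finset.range_eq_Ico]
          exact Finset.Ico_subset_Ico_left (Nat.zero_le _)
        · intro k _ _
          positivity
      have h6 : Real.sqrt (Ed d) ≤ Real.sqrt (2 ^ sl d * Ed d) := by
        apply Real.sqrt_le_sqrt
        have h7 : (1 : ℝ) ≤ 2 ^ sl d := one_le_pow₀ (by norm_num)
        nlinarith
      calc 7 / 32 * Real.sqrt (Ed d) * ∑ k ∈ Finset.Ico (k1 d + 1) (K + 1), 1 / ((k : ℝ) + 1) ^ 2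
          ≤ 7 / 32 * Real.sqrt (Ed d) * 2 := mul_le_mul_of_nonneg_left h5 (by positivity)
        _ ≤ Real.sqrt (Ed d) := by nlinarith [Real.sqrt_nonneg (Ed d : ℝ)]
        _ ≤ _ := h6
    linarith

end Pool.Agent.H.MP_02f3ba_co.h7
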