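import Pool.Agent.H.MP_02f3ba_co.h16.PosEnt
import Pool.Agent.H.MP_02f3ba_co.h7.Stg

/-!
# The infinite sequence, of positive entropy
-/

namespace Pool.Agent.H.MP_02f3ba_co.h7

open Finset Filter Polynomial Pool.Agent.H.MP_02f3ba_co Pool.Agent.H.MP_02f3ba_co.h16

/-- A path of stage `K` with many blocks. -/
theorem exists_good_path (M : ℕ → ℕ)
    (hM : ∀ n : ℕ, 1 ≤ n → (2 : ℝ) ^ (2 ^ n) * (⌊Real.exp ((n : ℝ) / 40)⌋₊ : ℝ) ^ M n *
      Real.exp (-((n * M n : ℕ) : ℝ) / 20) ≤ (1 / 2) ^ (n + 1)) (K : ℕ) :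
    ∃ ω : Fin (h7.Lw (K + 1)) → Bool,
      (∀ d, 1 ≤ d → h7.k1 d ≤ K → ∀ a N, a + N * d < h7.Hw K →
        |∑ i ∈ Finset.range N, path ω (a + i * d)| ≤
          2 * (449 * Real.sqrt (2 ^ sl d * h7.Ed d))) ∧
      ∀ n : ℕ, 1 ≤ n → n ≤ h7.Lw (K + 1) → n * M n ≤ h7.Lw (K + 1) →
        ⌊Real.exp ((n : ℝ) / 40)⌋₊ < (univ.image (blk ω n (M n))).card := by
  set Tp : ℝ[X] := h7.AA (K + 1) - 1 with hTp
  have hcaus : Causal (pred Tp) := fun y y' n h => pred_causal Tp y y' n h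
  have hhalf : ∀ y n, |pred Tp y n| ≤ 1 / 2 := fun y n => abs_pred_le Tp y n
  have h := hasKer_level (T := h7.Lw (K + 1)) (x := pred Tp) (L := h7.Lw) (N := h7.Nw)
    (b := h7.bw) (c := h7.cw)
    hcaus hhalf rfl h7.Lw_pos h7.Lw_dvd h7.bw_nonneg h7.Nw_bound
    (fun k i l _ => h7.cw_norm k i l) (K + 1) 0 (by simp) (fun _ => true)
  obtain ⟨μ, h1, h2⟩ := h
  have e1 : 0 * h7.Lw (K + 1) = 0 := Nat.zero_mul _
  have e2 : (0 + 1) * h7.Lw (K + 1) = h7.Lw (K + 1) := by rw [zero_add, one_mul]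
  rw [e1, e2] at h2
  have hκ : (5 / 4 - (1 / 2 : ℝ) ^ (K + 1) / 4) ≤ 5 / 4 := by
    have : (0 : ℝ) ≤ (1 / 2) ^ (K + 1) := by positivity
    linarith
  obtain ⟨ω, hω, hrich⟩ := exists_rich hcaus hhalf h2 hκ M hM
  refine ⟨ω, ?_, hrich⟩
  apply h7.stage_of_tests K (path ω)
  intro k hk hk1 i hi l hl
  exact (h1 ω hω).2.all h7.Lw_pos h7.Lw_dvd (K + 1) 0 k hk hk1 i (by simp) (by simpa using hi) l hl

theorem lt_Hw (K : ℕ) : K < h7.Hw K := by
  have h4 : K < 2 ^ K := Nat.lt_two_pow_self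
  have h5 : 2 ^ K ≤ h7.Hw K := by
    unfold h7.Hw
    exact Nat.pow_le_pow_right (by norm_num) (by omega)
  omega

theorem exists_seq_rich : ∃ f : ℕ → ℤ, (∀ n, f n = 1 ∨ f n = -1) ∧
    (∀ a d N : ℕ, 1 ≤ d → |((∑ i ∈ Finset.range N, f (a + i * d) : ℤ) : ℝ)| ≤
      898 * Real.sqrt (2 ^ sl d * h7.Ed d)) ∧
    ∀ n : ℕ, 1 ≤ n → ∃ M : ℕ,
      ⌊Real.exp ((n : ℝ) / 40)⌋₊ <
        (univ.image (fun (j : Fin M) => fun i : Fin n => f ((j : ℕ) * n + i))).card := by
  classical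
  have hMex : ∀ n : ℕ, ∃ M : ℕ, 1 ≤ n → (2 : ℝ) ^ (2 ^ n) *
      (⌊Real.exp ((n : ℝ) / 40)⌋₊ : ℝ) ^ M * Real.exp (-((n * M : ℕ) : ℝ) / 20) ≤
        (1 / 2) ^ (n + 1) := by
    intro n
    by_cases hn : 1 ≤ n
    · obtain ⟨M, hM⟩ := exists_M n hn
      exact ⟨M, fun _ => hM⟩
    · exact ⟨0, fun h => absurd h hn⟩
  choose M hM using hMex
  choose w hwb hwr using exists_good_path M hM
  set y : ℕ → ℕ → ℝ := fun K => path (w K) with hy
  have hys : ∀ K n, y K n = 1 ∨ y K n = -1 := fun K n => path_sign (w K) n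
  set U : Ultrafilter ℕ := hyperfilter ℕ with hU
  set f : ℕ → ℤ := fun n => if ∀ᶠ K in (U : Filter ℕ), y K n = 1 then 1 else -1 with hf
  have hf1 : ∀ n, ∀ᶠ K in (U : Filter ℕ), y K n = (f n : ℝ) := by
    intro n
    by_cases h : ∀ᶠ K in (U : Filter ℕ), y K n = 1
    · simp only [hf, if_pos h]
      simpa using h
    · simp only [hf, if_neg h]
      rw [← Ultrafilter.eventually_not] at h
      filter_upwards [h] with K hK
      rcases hys K n with h1 | h1
      · exact absurd h1 hK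
      · rw [h1]
        norm_num
  have hlarge : ∀ B : ℕ, ∀ᶠ K in (U : Filter ℕ), B ≤ K := by
    intro B
    have : ∀ᶠ K in (atTop : Filter ℕ), B ≤ K := eventually_ge_atTop _
    rw [← Nat.cofinite_eq_atTop] at this
    exact hyperfilter_le_cofinite this
  refine ⟨f, ?_, ?_, ?_⟩
  · intro n
    simp only [hf]
    split_ifs <;> simp
  · intro a d N hd
    have h1 : ∀ᶠ K in (U : Filter ℕ), ∀ i ∈ Finset.range N, y K (a + i * d) = (f (a + i * d) : ℝ) := by
      rw [Filter.eventually_all_finset]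
      intro i _
      exact hf1 _
    obtain ⟨K, hK1, hK2⟩ := (h1.and (hlarge (h7.k1 d + (a + N * d)))).exists
    have h3 := hwb K d hd (by omega) a N (by
      have := lt_Hw K
      omega)
    push_cast
    have h4 : ∑ i ∈ Finset.range N, path (w K) (a + i * d) =
        ∑ i ∈ Finset.range N, (f (a + i * d) : ℝ) := Finset.sum_congr rfl hK1
    rw [h4] at h3
    refine h3.trans (le_of_eq ?_)
    ring
  · intro n hn
    refine ⟨M n, ?_⟩
    have h1 : ∀ᶠ K in (U : Filter ℕ), ∀ m ∈ Finset.range (n * M n), y K m = (f m : ℝ) := by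
      rw [Filter.eventually_all_finset]
      intro i _
      exact hf1 _
    obtain ⟨K, hK1, hK2⟩ := (h1.and (hlarge (n + n * M n))).exists
    have hT : n + n * M n ≤ h7.Lw (K + 1) := by
      have h2 := lt_Hw K
      change n + n * M n ≤ h7.Hw K
      omega
    refine (hwr K n hn (by omega) (by omega)).trans_le ?_
    have h2 : univ.image (blk (w K) n (M n)) =
        (univ.image (fun (j : Fin (M n)) => fun i : Fin n => f ((j : ℕ) * n + i))).image
          (fun v : Fin n → ℤ => fun i => decide (v i = 1)) := by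
      rw [Finset.image_image]
      refine Finset.image_congr fun j _ => ?_
      funext i
      have h3 : (j : ℕ) * n + i < n * M n := by
        have hj := j.2
        have hi := i.2
        calc (j : ℕ) * n + i < (j : ℕ) * n + n := by omega
          _ = ((j : ℕ) + 1) * n := by ring
          _ ≤ M n * n := Nat.mul_le_mul_right _ hj
          _ = n * M n := Nat.mul_comm _ _
      have h4 : (j : ℕ) * n + i < h7.Lw (K + 1) := by omega
      have h5 := hK1 _ (Finset.mem_range.2 h3)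
      simp only [hy, path, h4, dif_pos] at h5
      simp only [Function.comp, blk, h4, dif_pos]
      by_cases h6 : w K ⟨(j : ℕ) * n + i, h4⟩ = true
      · rw [h6] at h5 ⊢
        simp only [if_true] at h5
        have h7 : f ((j : ℕ) * n + i) = 1 := by exact_mod_cast h5.symm
        exact (decide_eq_true h7).symm
      · rw [Bool.not_eq_true] at h6
        rw [h6] at h5 ⊢
        simp only [Bool.false_eq_true, if_false] at h5
        have h7 : f ((j : ℕ) * n + i) = -1 := by exact_mod_cast h5.symm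
        have h8 : ¬ (f ((j : ℕ) * n + i) = 1) := by
          rw [h7]
          norm_num
        exact (decide_eq_false h8).symm
    rw [h2]
    exact Finset.card_image_le

/-- the constant -/
noncomputable def CC : ℝ := 898 * (1024 * 4 * 2 ^ (3 / 2 : ℝ))

theorem CC_pos : 0 < CC := by
  unfold CC
  positivity

theorem final_bound (d : ℕ) (hd : 1 ≤ d) :
    898 * Real.sqrt (2 ^ sl d * h7.Ed d) ≤
      CC * (Real.sqrt d * (1 + Real.log d) ^ (3 / 2 : ℝ) *
        (1 + Real.log (1 + Real.log d)) ^ 2) := by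
  set j := Nat.log 2 d with hj
  set s := sl d with hs
  have hj1 : (2 : ℝ) ^ j ≤ d := by exact_mod_cast Nat.pow_log_le_self 2 (by omega : d ≠ 0)
  have hd1 : (1 : ℝ) ≤ d := by exact_mod_cast hd
  have hlog : 0 ≤ Real.log d := Real.log_nonneg hd1
  have hj0 : (0 : ℝ) ≤ j := Nat.cast_nonneg j
  have hlog2 := Real.log_two_gt_d9
  have hj2 : (j : ℝ) + 1 ≤ 2 * (1 + Real.log d) := by
    have h1 : (j : ℝ) * Real.log 2 ≤ Real.log d := by
      rw [← Real.log_pow]
      exact Real.log_le_log (by positivity) hj1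
    nlinarith
  have hs1 : (2 : ℝ) ^ s ≤ (j : ℝ) + 1 := by
    have h1 : 2 ^ s ≤ j + 1 := sl_le_log d
    exact_mod_cast h1
  have hP : (2 : ℝ) ^ s ≤ 2 * (1 + Real.log d) := hs1.trans hj2
  have hL : 0 ≤ Real.log (1 + Real.log d) := Real.log_nonneg (by linarith)
  have hs2 : (s : ℝ) + 1 ≤ 2 * (1 + Real.log (1 + Real.log d)) := by
    have h1 : (s : ℝ) * Real.log 2 ≤ Real.log 2 + Real.log (1 + Real.log d) := by
      rw [← Real.log_pow, ← Real.log_mul (by norm_num) (by linarith)]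
      exact Real.log_le_log (by positivity) hP
    have h2 : (0 : ℝ) ≤ s := Nat.cast_nonneg s
    nlinarith
  have hE : (2 : ℝ) ^ s * (h7.Ed d : ℝ) =
      (1024 * ((s : ℝ) + 1) ^ 2) ^ 2 * (2 ^ j * ((2 : ℝ) ^ s) ^ 3) := by
    unfold h7.Ed ww
    rw [← hj, ← hs]
    push_cast
    rw [show (4 : ℝ) ^ s = 2 ^ s * 2 ^ s by rw [← mul_pow]; norm_num]
    ring
  rw [hE, Real.sqrt_mul (by positivity), Real.sqrt_sq (by positivity),
    Real.sqrt_mul (by positivity)]
  have h1 : Real.sqrt ((2 : ℝ) ^ j) ≤ Real.sqrt d := Real.sqrt_le_sqrt hj1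
  have h2 : Real.sqrt (((2 : ℝ) ^ s) ^ 3) = ((2 : ℝ) ^ s) ^ (3 / 2 : ℝ) := by
    rw [Real.sqrt_eq_rpow, ← Real.rpow_natCast, ← Real.rpow_mul (by positivity)]
    norm_num
  have h3 : ((2 : ℝ) ^ s) ^ (3 / 2 : ℝ) ≤ 2 ^ (3 / 2 : ℝ) * (1 + Real.log d) ^ (3 / 2 : ℝ) := by
    rw [← Real.mul_rpow (by norm_num) (by linarith)]
    exact Real.rpow_le_rpow (by positivity) hP (by norm_num)
  have h4 : ((s : ℝ) + 1) ^ 2 ≤ (2 * (1 + Real.log (1 + Real.log d))) ^ 2 :=
    pow_le_pow_left₀ (by positivity) hs2 2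
  have h5 : 0 ≤ (1 + Real.log d) ^ (3 / 2 : ℝ) := Real.rpow_nonneg (by linarith) _
  rw [h2]
  calc 898 * (1024 * ((s : ℝ) + 1) ^ 2 * (Real.sqrt (2 ^ j) * ((2 : ℝ) ^ s) ^ (3 / 2 : ℝ)))
      ≤ 898 * (1024 * (2 * (1 + Real.log (1 + Real.log d))) ^ 2 *
        (Real.sqrt d * (2 ^ (3 / 2 : ℝ) * (1 + Real.log d) ^ (3 / 2 : ℝ)))) := by
        gcongr
    _ = CC * (Real.sqrt d * (1 + Real.log d) ^ (3 / 2 : ℝ) *
        (1 + Real.log (1 + Real.log d)) ^ 2) := by
        unfold CC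
        ring

end Pool.Agent.H.MP_02f3ba_co.h7
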